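import Mathlib
import Pool.Agent.TH922.KC.Con6
import Pool.Agent.TH922.KC.Kol6
import Pool.Agent.TH922.KC.Prod1

set_option autoImplicit false

open MvPolynomial

namespace Pool.Agent.Z894.CP

open Pool.Agent.TH922.KC

/-- part 1: existence of a derivation -/
def PDer : Prop :=
  ∀ (F : Type) [Field F] (p : ℕ) [Fact p.Prime] [CharP F p] (x : F), (∀ y : F, y ^ p ≠ x) →
    ∃ D : Derivation ℤ F F, D x = 1

/-- part 2: counting transcendence degrees -/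
def PCount : Prop :=
  ∀ (k0 F : Type) [Field k0] [Field F] [Algebra k0 F] (p : ℕ) [Fact p.Prime] [CharP F p]
    (n N0 : ℕ) (Φ : Type) [Fintype Φ] (e : Φ → ℕ), (∀ φ, p - 1 ≤ e φ) →
    ∀ (cf : (Σ φ : Φ, It (Fin (n + 1)) (e φ)) → F) (D : Derivation ℤ F F), (∀ s, D (cf s) = 0) →
    ∀ (x : Fin (n + 1) → F) (j0 j1 : Fin (n + 1)), x j0 = 1 → D (x j1) = 1 →
    AlgebraicIndependent k0
      (fun o : Option (Σ φ : Φ, It (Fin (n + 1)) (e φ)) => o.elim (x j1) cf) →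
    ∀ A : Finset Φ, (∀ φ ∈ A, D (∑ μ : It (Fin (n + 1)) (e φ),
      cf ⟨φ, μ⟩ * ∏ j, x j ^ (μ.1 j)) = 0) →
    ∀ θ : Fin N0 → F, (∀ t < p, ∀ j,
      IsAlgebraic (IntermediateField.adjoin k0 (Set.range θ)) (D^[t] (x j))) →
    A.card * (p - 1) + 1 ≤ N0

/-- the value of a linear form with coefficients in `k0` -/
noncomputable def lv {k0 κ Ω : Type} [Field k0] [Field κ] [Field Ω] [Algebra k0 κ] [Algebra κ Ω]
    {n N : ℕ} (L0 : Fin (N + 1) → Fin (n + 1) → k0) (y : Fin (n + 1) → Ω) (a : Fin (N + 1)) : Ω :=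
  ∑ j, algebraMap κ Ω (algebraMap k0 κ (L0 a j)) * y j

/-- the value of the form with index `φ` at `y` -/
noncomputable def pv {κ Ω : Type} [Field κ] [Field Ω] [Algebra κ Ω] {n : ℕ} {Φ : Type}
    (e : Φ → ℕ) (cf : (Σ φ : Φ, It (Fin (n + 1)) (e φ)) → κ) (y : Fin (n + 1) → Ω) (φ : Φ) : Ω :=
  ∑ μ : It (Fin (n + 1)) (e φ), algebraMap κ Ω (cf ⟨φ, μ⟩) * ∏ j, y j ^ (μ.1 j)

/-- the form with index `φ` -/
noncomputable def Psi {κ : Type} [CommRing κ] {n : ℕ} (β : Type) {Φ : Type}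
    (e : Φ → ℕ) (cf : (Σ φ : Φ, It (Fin (n + 1)) (e φ)) → κ) (φ : Φ) :
    MvPolynomial (Fin (n + 1) ⊕ β) κ :=
  ∑ μ : It (Fin (n + 1)) (e φ), C (cf ⟨φ, μ⟩) * ∏ j, X (Sum.inl j) ^ (μ.1 j)

/-- part 3: one step, ratios of coordinates are `p`-th powers -/
def PStep : Prop :=
  ∀ (k0 κ Ω : Type) [Field k0] [Field κ] [Field Ω] [Algebra k0 κ] [Algebra κ Ω] [IsAlgClosed κ]
    (p : ℕ) [Fact p.Prime] [CharP κ p] (n N B m : ℕ), n ≤ N → B ≤ m + 1 →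
    n ≤ (m + 2 - B) * (p - 1) →
    ∀ L0 : Fin (N + 1) → Fin (n + 1) → k0,
      (∀ S : Finset (Fin (N + 1)), n + 1 ≤ S.card → Submodule.span k0 (L0 '' S) = ⊤) →
    ∀ (blk : Fin (N + 1) → Fin B) (Φ : Type) [Fintype Φ] (e : Φ → ℕ), (∀ φ, p - 1 ≤ e φ) →
    ∀ (grp : Φ → Fin m) (cf : (Σ φ : Φ, It (Fin (n + 1)) (e φ)) → κ),
      AlgebraicIndependent k0 cf →
    ∀ (F : IntermediateField κ Ω) (y : Fin (n + 1) → Ω) (j0 : Fin (n + 1)), y j0 ≠ 0 →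
      (∀ j, y j / y j0 ∈ F) →
      (∀ a b, blk a = blk b → lv (κ := κ) L0 y a ≠ 0 → lv (κ := κ) L0 y b ≠ 0 →
        ∃ w ∈ F, w ^ p = lv (κ := κ) L0 y a / lv (κ := κ) L0 y b) →
      (∀ c, ∃ φ, grp φ = c ∧ ∃ w ∈ F, w ^ p = pv e cf y φ / y j0 ^ e φ) →
      ∀ j, ∃ w ∈ F, w ^ p = y j / y j0

/-- part 4: the statement over the residue field -/
def PKappa : Prop :=
  ∀ (k0 κ : Type) [Field k0] [Field κ] [Algebra k0 κ] [IsAlgClosed κ]
    (p : ℕ) [Fact p.Prime] [CharP κ p] (n N B m s : ℕ), s ≠ 0 → n ≤ N → B ≤ m + 1 →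
    n ≤ (m + 2 - B) * (p - 1) →
    ∀ L0 : Fin (N + 1) → Fin (n + 1) → k0,
      (∀ S : Finset (Fin (N + 1)), n + 1 ≤ S.card → Submodule.span k0 (L0 '' S) = ⊤) →
    ∀ (blk : Fin (N + 1) → Fin B) (β Φ : Type) [Fintype β] [Fintype Φ] [DecidableEq Φ]
      (e : Φ → ℕ), (∀ φ, p - 1 ≤ e φ) →
    ∀ (grp : Φ → Fin m) (fst : Fin m → Φ), (∀ c, grp (fst c) = c) →
    ∀ π : Φ → ℕ, (∀ φ, φ ≠ fst (grp φ) → p ∣ π φ) →
      (∀ c, e (fst c) + ∑ φ ∈ Finset.univ.filter (fun φ => grp φ = c ∧ φ ≠ fst c), π φ * e φ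
        = p ^ s) →
    ∀ cf : (Σ φ : Φ, It (Fin (n + 1)) (e φ)) → κ, AlgebraicIndependent k0 cf →
    ∀ P : Ideal (MvPolynomial (Fin (n + 1) ⊕ β) κ), IsHom P → P.IsPrime →
      (∃ C : ℕ, ∀ t, hf P t ≤ C * (t + 1)) →
      (∀ a b, a ≠ b → blk a = blk b → ∃ i : β, X (Sum.inr i) ^ (p ^ s) -
        (LF (fun a j => algebraMap k0 κ (L0 a j)) a) ^ (p ^ s - 1) *
          LF (fun a j => algebraMap k0 κ (L0 a j)) b ∈ P) →
      (∀ c, ∃ i : β, X (Sum.inr i) ^ (p ^ s) - Psi β e cf (fst c) *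
        ∏ φ ∈ Finset.univ.filter (fun φ => grp φ = c ∧ φ ≠ fst c), Psi β e cf φ ^ π φ ∈ P) →
      (∀ i : β, ∃ (D : ℕ) (H : MvPolynomial (Fin (n + 1)) κ), 0 < D ∧ H.IsHomogeneous D ∧
        X (Sum.inr i) ^ D - rename Sum.inl H ∈ P) →
      ∃ K : ℕ, ∀ t ≥ K, ((p ^ s : ℕ) : ℤ) ∣ (hf P (t + 1) : ℤ) - hf P t

/-- part 5: specialisation to characteristic `p` -/
def PSpec : Prop :=
  ∀ (X' : Type) [Finite X'] (r : ℕ) (d : Fin r → ℕ) (K1 : Subfield ℂ)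
    (f : Fin r → MvPolynomial X' ℂ), (∀ i, (f i).IsHomogeneous (d i)) →
    AlgebraicIndependent K1
      (fun x : (Σ i : Fin r, {μ : X' →₀ ℕ // μ.degree = d i}) => coeff x.2.1 (f x.1)) →
    ∀ (p : ℕ) [Fact p.Prime] (ι : Type) [Finite ι] (c : ι → K1), AlgebraicIndependent ℚ c →
    ∀ f0 : Fin r → MvPolynomial X' (MvPolynomial ι (ZMod p)), (∀ i, (f0 i).IsHomogeneous (d i)) →
    ∃ (B : ValuationSubring ℂ) (φ1 : MvPolynomial ι (ZMod p) →+* IsLocalRing.ResidueField B),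
      Function.Injective φ1 ∧
      ∀ I : Ideal (MvPolynomial X' ℂ), (∀ i, f i ∈ I) →
        ∀ i, MvPolynomial.map φ1 (f0 i) ∈ red B I

/-- part 6: residue fields are algebraically closed -/
def PAlg : Prop :=
  ∀ (K : Type) [Field K] [IsAlgClosed K] (B : ValuationSubring K),
    IsAlgClosed (IsLocalRing.ResidueField B)

/-- part 7: the statement over `ℂ`, prime powers -/
def PMain : Prop :=
  ∀ (n r : ℕ) (_hn : 0 < n) (d : Fin r → ℕ),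
    ∃ bad : ℕ → MvPolynomial (Σ i : Fin r, {μ : Fin (n + r + 1) →₀ ℕ // μ.degree = d i}) ℂ,
      (∀ j, bad j ≠ 0) ∧
      ∀ f : Fin r → MvPolynomial (Fin (n + r + 1)) ℂ,
        (∀ i, f i ∈ MvPolynomial.homogeneousSubmodule (Fin (n + r + 1)) ℂ (d i)) →
        (∀ j, MvPolynomial.eval (fun x => MvPolynomial.coeff x.2.1 (f x.1)) (bad j) ≠ 0) →
        ∀ I : Ideal (MvPolynomial (Fin (n + r + 1)) ℂ),
          (∀ p ∈ I, ∀ k : ℕ, MvPolynomial.homogeneousComponent k p ∈ I) →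
          I.IsPrime →
          ringKrullDim (MvPolynomial (Fin (n + r + 1)) ℂ ⧸ I) = 2 →
          (∀ i, f i ∈ I) →
          ∀ (p s m : ℕ), p.Prime → s ≠ 0 → (n - 1) * p + 1 ≤ m * (p - 1) →
          ∀ g : Fin r → Fin m,
            (∀ c, p ^ s ∣ ∏ i ∈ Finset.univ.filter (fun i => g i = c), d i) →
            ∃ K : ℕ, ∀ k : ℕ, K ≤ k →
              ((p ^ s : ℕ) : ℤ) ∣
                (Module.finrank ℂ (Submodule.map (Ideal.Quotient.mkₐ ℂ I).toLinearMap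
                    (MvPolynomial.homogeneousSubmodule (Fin (n + r + 1)) ℂ (k + 1))) : ℤ) -
                (Module.finrank ℂ (Submodule.map (Ideal.Quotient.mkₐ ℂ I).toLinearMap
                    (MvPolynomial.homogeneousSubmodule (Fin (n + r + 1)) ℂ k)) : ℤ)

/-- part 8: the final theorem -/
def PFinal : Prop :=
  ∀ (n r : ℕ) (_hn : 0 < n) (d : Fin r → ℕ),
    ∃ bad : ℕ → MvPolynomial (Σ i : Fin r, {μ : Fin (n + r + 1) →₀ ℕ // μ.degree = d i}) ℂ,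
      (∀ j, bad j ≠ 0) ∧
      ∀ f : Fin r → MvPolynomial (Fin (n + r + 1)) ℂ,
        (∀ i, f i ∈ MvPolynomial.homogeneousSubmodule (Fin (n + r + 1)) ℂ (d i)) →
        (∀ j, MvPolynomial.eval (fun x => MvPolynomial.coeff x.2.1 (f x.1)) (bad j) ≠ 0) →
        ∀ I : Ideal (MvPolynomial (Fin (n + r + 1)) ℂ),
          (∀ p ∈ I, ∀ k : ℕ, MvPolynomial.homogeneousComponent k p ∈ I) →
          I.IsPrime →
          ringKrullDim (MvPolynomial (Fin (n + r + 1)) ℂ ⧸ I) = 2 →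
          (∀ i, f i ∈ I) →
          ∀ m l Q : ℕ, 2 ≤ l → 0 < Q → (∀ p : ℕ, p.Prime → p ∣ Q → l ≤ p) →
            (n - 1) * l + 1 ≤ m * (l - 1) →
            ((∃ g : Fin r → Fin m,
                ∀ c, Q ∣ ∏ i ∈ Finset.univ.filter (fun i => g i = c), d i) ∨
              Q ^ (n * (m + ∑ j ∈ Finset.range n, (n - 1) / (l ^ (j + 1) - 1))) ∣ ∏ i, d i) →
            ∃ K : ℕ, ∀ k : ℕ, K ≤ k →
              (Q : ℤ) ∣
                (Module.finrank ℂ (Submodule.map (Ideal.Quotient.mkₐ ℂ I).toLinearMap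
                    (MvPolynomial.homogeneousSubmodule (Fin (n + r + 1)) ℂ (k + 1))) : ℤ) -
                (Module.finrank ℂ (Submodule.map (Ideal.Quotient.mkₐ ℂ I).toLinearMap
                    (MvPolynomial.homogeneousSubmodule (Fin (n + r + 1)) ℂ k)) : ℤ)

end Pool.Agent.Z894.CP
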