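import Mathlib
import Pool.Agent.Z894.LX.Stm
import Pool.Agent.Z894.CP.Stm

set_option autoImplicit false

open MvPolynomial

namespace Pool.Agent.Z894.CP

open Pool.Agent.TH922.KC Pool.Agent.Z894.LX

/-- valuation rings of residue characteristic `p` with independent residues -/
def MVal : Prop :=
  ∀ (K : Type) [Field K] [CharZero K] (p : ℕ) [Fact p.Prime] (ι : Type) [Finite ι] (c : ι → K),
    AlgebraicIndependent ℚ c →
    ∃ (B : ValuationSubring K) (φ1 : MvPolynomial ι (ZMod p) →+* IsLocalRing.ResidueField B),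
      Function.Injective φ1 ∧ ∀ u : MvPolynomial ι ℤ, ∃ h : aeval c u ∈ B,
        IsLocalRing.residue B ⟨aeval c u, h⟩ = φ1 (MvPolynomial.map (Int.castRingHom (ZMod p)) u)

/-- comparison of Hilbert functions of an integral extension -/
def MCmp : Prop :=
  ∀ (κ Ω : Type) [Field κ] [Field Ω] [Algebra κ Ω] (X β : Type) [Fintype X] [Fintype β]
    (y : X → Ω) (z : β → Ω) (j0 : X), y j0 ≠ 0 → (∀ i, IntRel (κ := κ) y 1 (z i)) →
    (∃ C : ℕ, ∀ t, Module.finrank κ (Pc κ (Sum.elim y z) t) ≤ C * (t + 1)) →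
    ∃ K a b δ : ℕ, 0 < δ ∧
      (∀ t ≥ K, Module.finrank κ (Pc κ (Sum.elim y z) (t + 1))
        = Module.finrank κ (Pc κ (Sum.elim y z) t) + a) ∧
      (∀ t ≥ K, Module.finrank κ (Pc κ y (t + 1)) = Module.finrank κ (Pc κ y t) + b) ∧
      a = δ * b ∧ ((∀ i, z i / y j0 ∈ RF κ y j0) → a = b)

/-- Vandermonde matrix of the powers of `ζ` -/
def ZL {κ : Type} [Field κ] (ζ : κ) (n N : ℕ) : Fin (N + 1) → Fin (n + 1) → κ :=
  fun a j => (ζ ^ (a : ℕ)) ^ (j : ℕ)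

/-- blocks and functions, characteristic zero, all relations explicit -/
def MK2 : Prop :=
  ∀ (κ : Type) [Field κ] [CharZero κ] [IsAlgClosed κ] (p : ℕ) [Fact p.Prime]
    (n N B m s M : ℕ), s ≠ 0 → n ≤ N → B ≤ m + 1 → n ≤ (m + 2 - B) * (p - 1) → N < M → ¬ p ∣ M →
    ∀ ζ : κ, IsPrimitiveRoot ζ M →
    ∀ (blk : Fin (N + 1) → Fin B) (β Φ : Type) [Fintype β] [Fintype Φ] [DecidableEq Φ]
      (e : Φ → ℕ), (∀ φ, p - 1 ≤ e φ) →
    ∀ (grp : Φ → Fin m) (fst : Fin m → Φ), (∀ c, grp (fst c) = c) →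
    ∀ π : Φ → ℕ, (∀ φ, φ ≠ fst (grp φ) → p ∣ π φ) →
      (∀ c, e (fst c) + ∑ φ ∈ Finset.univ.filter (fun φ => grp φ = c ∧ φ ≠ fst c), π φ * e φ
        = p ^ s) →
    ∀ cf : (Σ φ : Φ, It (Fin (n + 1)) (e φ)) → κ, AlgebraicIndependent ℚ cf →
    ∀ P : Ideal (MvPolynomial (Fin (n + 1) ⊕ β) κ), IsHom P →
      (∃ C : ℕ, ∀ t, hf P t ≤ C * (t + 1)) →
      (∀ a b, a ≠ b → blk a = blk b → ∃ i : β, X (Sum.inr i) ^ (p ^ s) -
        (LF (ZL ζ n N) a) ^ (p ^ s - 1) * LF (ZL ζ n N) b ∈ P) →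
      (∀ c, ∃ i : β, X (Sum.inr i) ^ (p ^ s) - Psi β e cf (fst c) *
        ∏ φ ∈ Finset.univ.filter (fun φ => grp φ = c ∧ φ ≠ fst c), Psi β e cf φ ^ π φ ∈ P) →
      (∀ i : β, X (Sum.inr i) ∈ P ∨
        (∃ ρ : Φ → ℕ, 0 < ∑ φ, ρ φ * e φ ∧
          X (Sum.inr i) ^ (∑ φ, ρ φ * e φ) - ∏ φ, Psi β e cf φ ^ ρ φ ∈ P) ∨
        ∃ a b, X (Sum.inr i) ^ (p ^ s) -
          (LF (ZL ζ n N) a) ^ (p ^ s - 1) * LF (ZL ζ n N) b ∈ P) →
      ∃ K : ℕ, ∀ t ≥ K, ((p ^ s : ℕ) : ℤ) ∣ (hf P (t + 1) : ℤ) - hf P t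

/-- blocks given by their equations, homogeneous primes over a field of characteristic zero -/
def MK1 : Prop :=
  ∀ (κ : Type) [Field κ] [CharZero κ] [IsAlgClosed κ] (p : ℕ) [Fact p.Prime]
    (n N r B m s M : ℕ), s ≠ 0 → n ≤ N → B ≤ m + 1 → n ≤ (m + 2 - B) * (p - 1) → N < M →
    ¬ p ∣ M →
    ∀ ζ : κ, IsPrimitiveRoot ζ M → ∀ ω : κ, IsPrimitiveRoot ω (p ^ s) →
    ∀ (blk : Fin (N + 1) → Fin B) (Φ : Type) [Fintype Φ] [DecidableEq Φ]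
      (e : Φ → ℕ), (∀ φ, p - 1 ≤ e φ) →
    ∀ (grp : Φ → Fin m) (fst : Fin m → Φ), (∀ c, grp (fst c) = c) →
    ∀ π : Φ → ℕ, (∀ φ, φ ≠ fst (grp φ) → p ∣ π φ) →
      (∀ c, e (fst c) + ∑ φ ∈ Finset.univ.filter (fun φ => grp φ = c ∧ φ ≠ fst c), π φ * e φ
        = p ^ s) →
    ∀ cf : (Σ φ : Φ, It (Fin (n + 1)) (e φ)) → κ, AlgebraicIndependent ℚ cf →
    ∀ (S : Fin B → Finset ℕ), (∀ b x, x ∈ S b ↔ ∃ h : x < N + 1, blk ⟨x, h⟩ = b) →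
    ∀ (ix : Fin B → Fin r) (h0 : Fin B → ℕ) (ee : Fin B → ℕ),
      (∀ b, 1 < (S b).card → (S b).card < p ∧ 0 < ee b) →
    ∀ c : ∀ b, IH N 0 (p ^ s) (p ^ s * ee b) (S b) → κ,
      (∀ b, 1 < (S b).card → AlgebraicIndependent ℚ (c b)) →
    ∀ P : Ideal (MvPolynomial (Fin (n + 1) ⊕ Fin r) κ), IsHom P → P.IsPrime →
      (∃ C : ℕ, ∀ t, hf P t ≤ C * (t + 1)) →
      (∀ b, 1 < (S b).card → ∃ E : MvPolynomial (Fin (N + 1) ⊕ Fin r) κ,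
        aeval (Sum.elim (fun a => LF (ZL ζ n N) a) (fun i => X (Sum.inr i)) :
          Fin (N + 1) ⊕ Fin r → MvPolynomial (Fin (n + 1) ⊕ Fin r) κ) E ∈ P ∧
        ∀ (Ω : Type) [Field Ω] (θ : κ →+* Ω) (x : Fin (N + 1) ⊕ Fin r → Ω) (yy : ℕ → Ω),
          (∀ (m : ℕ) (h : m < N + 1), x (Sum.inl ⟨m, h⟩) = yy m ^ (p ^ s)) →
          (∀ m, N + 1 ≤ m → yy m = 0) →
          eval₂ θ x E = ∏ l : {b' // b' ∈ (S b).erase (h0 b)} → Fin (p ^ s),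
            (x (Sum.inr (ix b)) ^ ee b -
              ∑ o, θ (c b o * ω ^ (∑ b', (l b' : ℕ) * bd 0 (mE o) b'.1)) *
              ∏ m ∈ Finset.range (N + 1), yy m ^ mE o m)) →
      (∀ c, ∃ i : Fin r, (∀ b, 1 < (S b).card → ix b ≠ i) ∧
        X (Sum.inr i) ^ (p ^ s) - Psi (Fin r) e cf (fst c) *
        ∏ φ ∈ Finset.univ.filter (fun φ => grp φ = c ∧ φ ≠ fst c),
          Psi (Fin r) e cf φ ^ π φ ∈ P) →
      (∀ i, (∀ b, 1 < (S b).card → ix b ≠ i) → X (Sum.inr i) ∈ P ∨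
        ∃ ρ : Φ → ℕ, 0 < ∑ φ, ρ φ * e φ ∧
          X (Sum.inr i) ^ (∑ φ, ρ φ * e φ) - ∏ φ, Psi (Fin r) e cf φ ^ ρ φ ∈ P) →
      ∃ K : ℕ, ∀ t ≥ K, ((p ^ s : ℕ) : ℤ) ∣ (hf P (t + 1) : ℤ) - hf P t

/-- the statement over `ℂ`, prime powers -/
def MMain : Prop :=
  ∀ (n r : ℕ) (_hn : 0 < n) (d : Fin r → ℕ),
    ∃ bad : ℕ → MvPolynomial (Σ i : Fin r, {μ : Fin (n + r + 1) →₀ ℕ // μ.degree = d i}) ℂ,
      (∀ j, bad j ≠ 0) ∧
      ∀ f : Fin r → MvPolynomial (Fin (n + r + 1)) ℂ,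
        (∀ i, f i ∈ MvPolynomial.homogeneousSubmodule (Fin (n + r + 1)) ℂ (d i)) →
        (∀ j, MvPolynomial.eval (fun x => MvPolynomial.coeff x.2.1 (f x.1)) (bad j) ≠ 0) →
        ∀ I : Ideal (MvPolynomial (Fin (n + r + 1)) ℂ),
          (∀ p ∈ I, ∀ k : ℕ, MvPolynomial.homogeneousComponent k p ∈ I) →
          I.IsPrime →
          ringKrullDim (MvPolynomial (Fin (n + r + 1)) ℂ ⧸ I) = 2 →
          (∀ i, f i ∈ I) →
          ∀ (p s m B : ℕ) (a : Fin B → ℕ) (ix : Fin B → Fin r) (g : Fin r → Option (Fin m)),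
            p.Prime → s ≠ 0 → B ≤ m + 1 → n ≤ (m + 2 - B) * (p - 1) → n + 1 ≤ ∑ b, (a b + 1) →
            (∀ b, a b ≠ 0 → a b + 1 < p ∧ g (ix b) = none ∧ p ^ (s * a b) ∣ d (ix b) ∧
              0 < d (ix b)) →
            (∀ b b', a b ≠ 0 → a b' ≠ 0 → ix b = ix b' → b = b') →
            (∀ c, p ^ s ∣ ∏ i ∈ Finset.univ.filter (fun i => g i = some c), d i) →
            ∃ K : ℕ, ∀ k : ℕ, K ≤ k →
              ((p ^ s : ℕ) : ℤ) ∣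
                (Module.finrank ℂ (Submodule.map (Ideal.Quotient.mkₐ ℂ I).toLinearMap
                    (MvPolynomial.homogeneousSubmodule (Fin (n + r + 1)) ℂ (k + 1))) : ℤ) -
                (Module.finrank ℂ (Submodule.map (Ideal.Quotient.mkₐ ℂ I).toLinearMap
                    (MvPolynomial.homogeneousSubmodule (Fin (n + r + 1)) ℂ k)) : ℤ)

/-- combinatorics: blocks and groups from valuations -/
def MComb : Prop :=
  ∀ (r n s : ℕ) (v : Fin r → ℕ), 0 < n → 0 < s → (2 * n - 1) * s ≤ ∑ i, v i →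
    (∀ i, v i < n * s) →
    ∃ (m B : ℕ) (a : Fin B → ℕ) (ix : Fin B → Fin r) (g : Fin r → Option (Fin m)),
      B ≤ m + 1 ∧ n + 1 ≤ ∑ b, (a b + 1) ∧
      (∀ b, a b ≠ 0 → a b + 1 ≤ n ∧ g (ix b) = none ∧ s * a b ≤ v (ix b)) ∧
      (∀ b b', a b ≠ 0 → a b' ≠ 0 → ix b = ix b' → b = b') ∧
      ∀ c, s ≤ ∑ i ∈ Finset.univ.filter (fun i => g i = some c), v i

/-- the final theorem -/
def MFinal : Prop :=
  ∀ (n r : ℕ) (_hn : 0 < n) (d : Fin r → ℕ),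
    ∃ bad : ℕ → MvPolynomial (Σ i : Fin r, {μ : Fin (n + r + 1) →₀ ℕ // μ.degree = d i}) ℂ,
      (∀ j, bad j ≠ 0) ∧
      ∀ f : Fin r → MvPolynomial (Fin (n + r + 1)) ℂ,
        (∀ i, f i ∈ MvPolynomial.homogeneousSubmodule (Fin (n + r + 1)) ℂ (d i)) →
        (∀ j, MvPolynomial.eval (fun x => MvPolynomial.coeff x.2.1 (f x.1)) (bad j) ≠ 0) →
        ∀ I : Ideal (MvPolynomial (Fin (n + r + 1)) ℂ),
          (∀ p ∈ I, ∀ k : ℕ, MvPolynomial.homogeneousComponent k p ∈ I) →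
          I.IsPrime →
          ringKrullDim (MvPolynomial (Fin (n + r + 1)) ℂ ⧸ I) = 2 →
          (∀ i, f i ∈ I) →
          ∀ l Q : ℕ, 2 ≤ l → 0 < Q → (∀ p : ℕ, p.Prime → p ∣ Q → l ≤ p) →
            ((n < l ∧ Q ^ (2 * n - 1) ∣ ∏ i, d i) ∨
              ∃ (m B : ℕ) (a : Fin B → ℕ) (ix : Fin B → Fin r) (g : Fin r → Option (Fin m)),
                B ≤ m + 1 ∧ n ≤ (m + 2 - B) * (l - 1) ∧ n + 1 ≤ ∑ b, (a b + 1) ∧
                (∀ b, a b ≠ 0 → a b + 1 < l ∧ g (ix b) = none ∧ Q ^ (a b) ∣ d (ix b)) ∧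
                (∀ b b', a b ≠ 0 → a b' ≠ 0 → ix b = ix b' → b = b') ∧
                ∀ c, Q ∣ ∏ i ∈ Finset.univ.filter (fun i => g i = some c), d i) →
            ∃ K : ℕ, ∀ k : ℕ, K ≤ k →
              (Q : ℤ) ∣
                (Module.finrank ℂ (Submodule.map (Ideal.Quotient.mkₐ ℂ I).toLinearMap
                    (MvPolynomial.homogeneousSubmodule (Fin (n + r + 1)) ℂ (k + 1))) : ℤ) -
                (Module.finrank ℂ (Submodule.map (Ideal.Quotient.mkₐ ℂ I).toLinearMap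
                    (MvPolynomial.homogeneousSubmodule (Fin (n + r + 1)) ℂ k)) : ℤ)

end Pool.Agent.Z894.CP
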