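import Mathlib
import Pool.Agent.Z894.LX.Stm
import Pool.Agent.Z894.CP.Stm
import Pool.Agent.Z894.CP.Stm2

set_option autoImplicit false

open MvPolynomial

namespace Pool.Agent.Z894.ND

open Pool.Agent.TH922.KC Pool.Agent.Z894.LX Pool.Agent.Z894.CP

/-- combinatorial data: hidden parts `H` and visible parts `Fin r` of the equations -/
structure Dat (r m : ℕ) (H : Type) where
  it : H → Fin r
  used : Fin r → Prop
  t : H ⊕ Fin r → ℕ
  prev : H ⊕ Fin r → Option (Fin r)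
  grp : H ⊕ Fin r → Fin m
  fst : Fin m → H ⊕ Fin r
  lst : Fin m → H ⊕ Fin r
  pi : H ⊕ Fin r → ℕ

variable {r m : ℕ} {H : Type}

/-- the degree of the form of a part -/
def Dat.e (D : Dat r m H) (p : ℕ) (φ : H ⊕ Fin r) : ℕ :=
  p ^ D.t φ - (D.prev φ).elim 0 (fun _ => 1)

/-- the equation of a part -/
def Dat.item (D : Dat r m H) (φ : H ⊕ Fin r) : Fin r := Sum.elim D.it id φ

/-- the part belongs to a used equation -/
def Dat.valid (D : Dat r m H) (φ : H ⊕ Fin r) : Prop := D.used (D.item φ)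

/-- the previous coordinate, or one -/
def Dat.pv (D : Dat r m H) {R : Type} [CommRing R] (w : Fin r → R) (φ : H ⊕ Fin r) : R :=
  (D.prev φ).elim 1 w

/-- the properties of the data -/
structure Dat.Good [Fintype H] [DecidableEq H] (D : Dat r m H) (p s : ℕ) : Prop where
  tpos : ∀ φ, 1 ≤ D.t φ
  tle : ∀ φ, D.t φ ≤ s
  itused : ∀ h, D.used (D.it h)
  prevlt : ∀ φ i, D.prev φ = some i → D.used i ∧ i < D.item φ
  comp : ∀ h, D.prev (Sum.inr (D.it h)) = none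
  grpfst : ∀ c, D.grp (D.fst c) = c
  pdvd : ∀ φ, φ ≠ D.fst (D.grp φ) → p ∣ D.pi φ
  degree : ∀ c, D.e p (D.fst c) +
    ∑ φ ∈ Finset.univ.filter (fun φ => D.grp φ = c ∧ φ ≠ D.fst c), D.pi φ * D.e p φ = p ^ s
  lstvalid : ∀ c, D.valid (D.lst c)
  chain : ∀ c, ∀ (R : Type) [CommRing R] (w T : H ⊕ Fin r → R),
    (∀ φ, D.valid φ → w φ ^ (p ^ D.t φ) = D.pv (fun i => w (Sum.inr i)) φ * T φ) →
    w (D.lst c) ^ (p ^ s) = T (D.fst c) *
      ∏ φ ∈ Finset.univ.filter (fun φ => D.grp φ = c ∧ φ ≠ D.fst c), T φ ^ D.pi φ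
  integral : ∀ φ, D.valid φ → ∃ ρ : H ⊕ Fin r → ℕ, 0 < ∑ ψ, ρ ψ * D.e p ψ ∧
    ∀ (R : Type) [CommRing R] (w T : H ⊕ Fin r → R),
    (∀ φ, D.valid φ → w φ ^ (p ^ D.t φ) = D.pv (fun i => w (Sum.inr i)) φ * T φ) →
      w φ ^ (∑ ψ, ρ ψ * D.e p ψ) = ∏ ψ, T ψ ^ ρ ψ

/-- the total exponent of an equation -/
def Dat.tot [Fintype H] (D : Dat r m H) (i : Fin r) : ℕ :=
  D.t (Sum.inr i) + ∑ h ∈ Finset.univ.filter (fun h => D.it h = i), D.t (Sum.inl h)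

/-- index type of the coefficients of the mixed forms -/
abbrev Dat.Ex [Fintype H] [DecidableEq H] (D : Dat r m H) (n p : ℕ) : Type :=
  Σ i : {i : Fin r // ∃ h, D.it h = i},
    It (Fin (n + 1) ⊕ {h : H // D.it h = i.1}) (p ^ D.t (Sum.inr i.1))

/-- value of the pure form of a part -/
noncomputable def Dat.fv (D : Dat r m H) {n p : ℕ} {R : Type} [CommRing R]
    (cf : (Σ φ : H ⊕ Fin r, It (Fin (n + 1)) (D.e p φ)) → R) (x : Fin (n + 1) → R)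
    (φ : H ⊕ Fin r) : R :=
  ∑ μ : It (Fin (n + 1)) (D.e p φ), cf ⟨φ, μ⟩ * ∏ j, x j ^ (μ.1 j)

/-- value of the mixed form of an equation -/
noncomputable def Dat.mv [Fintype H] [DecidableEq H] (D : Dat r m H) {n p : ℕ} {R : Type}
    [CommRing R] (c' : D.Ex n p → R) (x : Fin (n + 1) → R) (i : {i : Fin r // ∃ h, D.it h = i})
    (z : {h : H // D.it h = i.1} → R) : R :=
  ∑ μ : It (Fin (n + 1) ⊕ {h : H // D.it h = i.1}) (p ^ D.t (Sum.inr i.1)),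
    c' ⟨i, μ⟩ * ((∏ j, x j ^ (μ.1 (Sum.inl j))) * ∏ h, z h ^ (μ.1 (Sum.inr h)))

/-- `E` is the norm form of the equation `i` -/
def Dat.IsNorm [Fintype H] [DecidableEq H] (D : Dat r m H) {n p : ℕ} {κ : Type} [Field κ]
    (s : ℕ) (ω : κ) (cf : (Σ φ : H ⊕ Fin r, It (Fin (n + 1)) (D.e p φ)) → κ)
    (c' : D.Ex n p → κ) (i : {i : Fin r // ∃ h, D.it h = i})
    (E : MvPolynomial (Fin (n + 1) ⊕ Fin r) κ) : Prop :=
  ∀ (Ω : Type) [Field Ω] (θ : κ →+* Ω) (x : Fin (n + 1) → Ω) (X' : Fin r → Ω)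
    (z : {h : H // D.it h = i.1} → Ω),
    (∀ h, z h ^ (p ^ D.t (Sum.inl h.1)) =
      D.pv X' (Sum.inl h.1) * D.fv (fun k => θ (cf k)) x (Sum.inl h.1)) →
    eval₂ θ (Sum.elim x X') E =
      ∏ l : (∀ h : {h : H // D.it h = i.1}, Fin (p ^ D.t (Sum.inl h.1))),
        (X' i.1 ^ (p ^ D.t (Sum.inr i.1)) - (D.fv (fun k => θ (cf k)) x (Sum.inr i.1) +
          D.mv (fun k => θ (c' k)) x i
            (fun h => θ (ω ^ ((l h : ℕ) * p ^ (s - D.t (Sum.inl h.1)))) * z h)))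

/-- the form with index `φ` and its extra terms -/
noncomputable def Th {κ : Type} [CommRing κ] {n : ℕ} (β : Type) {Φ E : Type} [Fintype E]
    [DecidableEq Φ] (e : Φ → ℕ) (cf : (Σ φ : Φ, It (Fin (n + 1)) (e φ)) → κ) (gr : E → Φ)
    (W : E → MvPolynomial (Fin (n + 1) ⊕ β) ℤ) (c' : E → κ) (φ : Φ) :
    MvPolynomial (Fin (n + 1) ⊕ β) κ :=
  Psi β e cf φ + ∑ ν ∈ Finset.univ.filter (fun ν => gr ν = φ),
    C (c' ν) * MvPolynomial.map (Int.castRingHom κ) (W ν)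

/-- part 1: hidden roots lie in the field -/
def NHid : Prop :=
  ∀ (k1 κ Ω : Type) [Field k1] [Field κ] [Field Ω] [Algebra k1 κ] [Algebra κ Ω] [Algebra k1 Ω]
    [IsScalarTower k1 κ Ω] [CharZero k1] [IsAlgClosed κ] (p : ℕ) [Fact p.Prime] (n s t : ℕ),
    n < p → 1 ≤ t → ∀ ω : κ, IsPrimitiveRoot ω (p ^ s) →
    ∀ (J : Type) [Fintype J] (x : Fin (n + 1) → Ω) (j0 : Fin (n + 1)), x j0 = 1 →
    ∀ (z : J → Ω) (X0 a : Ω) (F : IntermediateField κ Ω), (∀ j, x j ∈ F) →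
      (∀ j, z j ^ (p ^ s) ∈ F) → X0 ∈ F → a ∈ F →
      (∀ j, IsAlgebraic (IntermediateField.adjoin k1 (Set.range x)) (z j)) →
      IsAlgebraic (IntermediateField.adjoin k1 (Set.range x)) a →
    ∀ c : It (Fin (n + 1) ⊕ J) (p ^ t) → κ, AlgebraicIndependent k1 c →
      X0 ^ (p ^ t) = a + ∑ μ : It (Fin (n + 1) ⊕ J) (p ^ t), algebraMap κ Ω (c μ) *
        ((∏ j, x j ^ (μ.1 (Sum.inl j))) * ∏ j, z j ^ (μ.1 (Sum.inr j))) →
      ∀ j, z j ∈ F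

/-- part 2: explicit relations in characteristic zero -/
def NK2 : Prop :=
  ∀ (κ : Type) [Field κ] [CharZero κ] [IsAlgClosed κ] (p : ℕ) [Fact p.Prime]
    (n m s : ℕ), s ≠ 0 → n ≤ m → n < p →
    ∀ (β Φ E : Type) [Fintype β] [Fintype Φ] [DecidableEq Φ] [Fintype E]
      (e : Φ → ℕ), (∀ φ, p - 1 ≤ e φ) →
    ∀ (grp : Φ → Fin m) (fst : Fin m → Φ), (∀ c, grp (fst c) = c) →
    ∀ π : Φ → ℕ, (∀ φ, φ ≠ fst (grp φ) → p ∣ π φ) →
      (∀ c, e (fst c) + ∑ φ ∈ Finset.univ.filter (fun φ => grp φ = c ∧ φ ≠ fst c), π φ * e φ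
        = p ^ s) →
    ∀ (gr : E → Φ) (W : E → MvPolynomial (Fin (n + 1) ⊕ β) ℤ)
      (cf : (Σ φ : Φ, It (Fin (n + 1)) (e φ)) → κ) (c' : E → κ),
      AlgebraicIndependent ℚ (Sum.elim cf c') →
    ∀ P : Ideal (MvPolynomial (Fin (n + 1) ⊕ β) κ), IsHom P →
      (∃ C : ℕ, ∀ t, hf P t ≤ C * (t + 1)) →
      (∀ c, ∃ i : β, X (Sum.inr i) ^ (p ^ s) - Th β e cf gr W c' (fst c) *
        ∏ φ ∈ Finset.univ.filter (fun φ => grp φ = c ∧ φ ≠ fst c),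
          Th β e cf gr W c' φ ^ π φ ∈ P) →
      (∀ i : β, X (Sum.inr i) ∈ P ∨ ∃ ρ : Φ → ℕ, 0 < ∑ φ, ρ φ * e φ ∧
          X (Sum.inr i) ^ (∑ φ, ρ φ * e φ) - ∏ φ, Th β e cf gr W c' φ ^ ρ φ ∈ P) →
      ∃ K : ℕ, ∀ t ≥ K, ((p ^ s : ℕ) : ℤ) ∣ (hf P (t + 1) : ℤ) - hf P t

/-- part 3: existence of norm forms -/
def NNorm : Prop :=
  ∀ (κ : Type) [Field κ] [CharZero κ] (p : ℕ) [Fact p.Prime] (n r m s : ℕ) (H : Type)
    [Fintype H] [DecidableEq H] (D : Dat r m H), D.Good p s →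
    ∀ ω : κ, IsPrimitiveRoot ω (p ^ s) →
    ∀ (cf : (Σ φ : H ⊕ Fin r, It (Fin (n + 1)) (D.e p φ)) → κ) (c' : D.Ex n p → κ)
      (i : {i : Fin r // ∃ h, D.it h = i}),
      ∃ E : MvPolynomial (Fin (n + 1) ⊕ Fin r) κ, E.IsHomogeneous (p ^ D.tot i.1) ∧
        D.IsNorm s ω cf c' i E

/-- part 4: norm forms, homogeneous primes over a field of characteristic zero -/
def NK1 : Prop :=
  ∀ (κ : Type) [Field κ] [CharZero κ] [IsAlgClosed κ] (p : ℕ) [Fact p.Prime]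
    (n r m s : ℕ), s ≠ 0 → n ≤ m → n < p →
    ∀ (H : Type) [Fintype H] [DecidableEq H] (D : Dat r m H), D.Good p s →
    ∀ ω : κ, IsPrimitiveRoot ω (p ^ s) →
    ∀ (cf : (Σ φ : H ⊕ Fin r, It (Fin (n + 1)) (D.e p φ)) → κ) (c' : D.Ex n p → κ),
      AlgebraicIndependent ℚ (Sum.elim cf c') →
    ∀ P : Ideal (MvPolynomial (Fin (n + 1) ⊕ Fin r) κ), IsHom P → P.IsPrime →
      (∃ C : ℕ, ∀ t, hf P t ≤ C * (t + 1)) →
      (∀ i, ¬ D.used i → X (Sum.inr i) ∈ P) →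
      (∀ i, D.used i → (∀ h, D.it h ≠ i) → X (Sum.inr i) ^ (p ^ D.t (Sum.inr i)) -
        D.pv (fun i' => X (Sum.inr i')) (Sum.inr i) *
          Psi (Fin r) (D.e p) cf (Sum.inr i) ∈ P) →
      (∀ i : {i : Fin r // ∃ h, D.it h = i}, ∃ E ∈ P, D.IsNorm s ω cf c' i E) →
      ∃ K : ℕ, ∀ t ≥ K, ((p ^ s : ℕ) : ℤ) ∣ (hf P (t + 1) : ℤ) - hf P t

/-- part 5: the statement over `ℂ`, prime powers -/
def NMain : Prop :=
  ∀ (n r : ℕ) (_hn : 0 < n) (d : Fin r → ℕ),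
    ∃ bad : ℕ → MvPolynomial (Σ i : Fin r, {μ : Fin (n + r + 1) →₀ ℕ // μ.degree = d i}) ℂ,
      (∀ j, bad j ≠ 0) ∧
      ∀ f : Fin r → MvPolynomial (Fin (n + r + 1)) ℂ,
        (∀ i, f i ∈ MvPolynomial.homogeneousSubmodule (Fin (n + r + 1)) ℂ (d i)) →
        (∀ j, MvPolynomial.eval (fun x => MvPolynomial.coeff x.2.1 (f x.1)) (bad j) ≠ 0) →
        ∀ I : Ideal (MvPolynomial (Fin (n + r + 1)) ℂ),
          (∀ p ∈ I, ∀ k : ℕ, MvPolynomial.homogeneousComponent k p ∈ I) →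
          I.IsPrime →
          ringKrullDim (MvPolynomial (Fin (n + r + 1)) ℂ ⧸ I) = 2 →
          (∀ i, f i ∈ I) →
          ∀ (p m s : ℕ) (H : Type) [Fintype H] [DecidableEq H] (D : Dat r m H),
            p.Prime → s ≠ 0 → n ≤ m → n < p → D.Good p s →
            (∀ i, D.used i → 0 < d i ∧ p ^ D.tot i ∣ d i) →
            ∃ K : ℕ, ∀ k : ℕ, K ≤ k →
              ((p ^ s : ℕ) : ℤ) ∣
                (Module.finrank ℂ (Submodule.map (Ideal.Quotient.mkₐ ℂ I).toLinearMap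
                    (MvPolynomial.homogeneousSubmodule (Fin (n + r + 1)) ℂ (k + 1))) : ℤ) -
                (Module.finrank ℂ (Submodule.map (Ideal.Quotient.mkₐ ℂ I).toLinearMap
                    (MvPolynomial.homogeneousSubmodule (Fin (n + r + 1)) ℂ k)) : ℤ)

/-- part 6: combinatorics, packing the equations into `m` groups of size `s` -/
def NComb : Prop :=
  ∀ (r m s p : ℕ) (v : Fin r → ℕ), p.Prime → 0 < m → 0 < s → m * s ≤ ∑ i, v i →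
    ∃ (H : Type) (_ : Fintype H) (_ : DecidableEq H) (D : Dat r m H),
      D.Good p s ∧ ∀ i, D.used i → D.tot i ≤ v i

/-- part 7: the final theorem -/
def NFinal : Prop :=
  ∀ (n r : ℕ) (_hn : 0 < n) (d : Fin r → ℕ),
    ∃ bad : ℕ → MvPolynomial (Σ i : Fin r, {μ : Fin (n + r + 1) →₀ ℕ // μ.degree = d i}) ℂ,
      (∀ j, bad j ≠ 0) ∧
      ∀ f : Fin r → MvPolynomial (Fin (n + r + 1)) ℂ,
        (∀ i, f i ∈ MvPolynomial.homogeneousSubmodule (Fin (n + r + 1)) ℂ (d i)) →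
        (∀ j, MvPolynomial.eval (fun x => MvPolynomial.coeff x.2.1 (f x.1)) (bad j) ≠ 0) →
        ∀ I : Ideal (MvPolynomial (Fin (n + r + 1)) ℂ),
          (∀ p ∈ I, ∀ k : ℕ, MvPolynomial.homogeneousComponent k p ∈ I) →
          I.IsPrime →
          ringKrullDim (MvPolynomial (Fin (n + r + 1)) ℂ ⧸ I) = 2 →
          (∀ i, f i ∈ I) →
          ∀ Q : ℕ, 0 < Q → (∀ p : ℕ, p.Prime → p ∣ Q → n < p) → Q ^ n ∣ ∏ i, d i →
            ∃ K : ℕ, ∀ k : ℕ, K ≤ k →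
              (Q : ℤ) ∣
                (Module.finrank ℂ (Submodule.map (Ideal.Quotient.mkₐ ℂ I).toLinearMap
                    (MvPolynomial.homogeneousSubmodule (Fin (n + r + 1)) ℂ (k + 1))) : ℤ) -
                (Module.finrank ℂ (Submodule.map (Ideal.Quotient.mkₐ ℂ I).toLinearMap
                    (MvPolynomial.homogeneousSubmodule (Fin (n + r + 1)) ℂ k)) : ℤ)

end Pool.Agent.Z894.ND
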