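import Mathlib
import Pool.Agent.Z894.LX.Stm
import Pool.Agent.Z894.CP.Stm
import Pool.Agent.Z894.CP.Stm2
import Pool.Agent.Z894.CP.Stm3

set_option autoImplicit false

open MvPolynomial

namespace Pool.Agent.Z894.SP

open Pool.Agent.TH922.KC Pool.Agent.Z894.LX Pool.Agent.Z894.CP Pool.Agent.Z894.ND

/-- part 1: powers of hidden roots lie in the field -/
def SHid : Prop :=
  ∀ (k1 κ Ω : Type) [Field k1] [Field κ] [Field Ω] [Algebra k1 κ] [Algebra κ Ω] [Algebra k1 Ω]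
    [IsScalarTower k1 κ Ω] [CharZero k1] [IsAlgClosed κ] (p : ℕ) [Fact p.Prime] (n k0 s t : ℕ),
    n < p ^ (k0 + 1) → k0 + 1 ≤ t → ∀ ω : κ, IsPrimitiveRoot ω (p ^ s) →
    ∀ (J : Type) [Fintype J] (x : Fin (n + 1) → Ω) (j0 : Fin (n + 1)), x j0 = 1 →
    ∀ (z : J → Ω) (X0 a : Ω) (F : IntermediateField κ Ω), (∀ j, x j ∈ F) →
      (∀ j, z j ^ (p ^ s) ∈ F) → X0 ∈ F → a ∈ F →
      (∀ j, IsAlgebraic (IntermediateField.adjoin k1 (Set.range x)) (z j)) →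
      IsAlgebraic (IntermediateField.adjoin k1 (Set.range x)) a →
    ∀ c : It (Fin (n + 1) ⊕ J) (p ^ t) → κ, AlgebraicIndependent k1 c →
      X0 ^ (p ^ t) = a + ∑ μ : It (Fin (n + 1) ⊕ J) (p ^ t), algebraMap κ Ω (c μ) *
        ((∏ j, x j ^ (μ.1 (Sum.inl j))) * ∏ j, z j ^ (μ.1 (Sum.inr j))) →
      ∀ j, z j ^ (p ^ k0) ∈ F

/-- part 2: explicit relations in characteristic zero -/
def SK2 : Prop :=
  ∀ (κ : Type) [Field κ] [CharZero κ] [IsAlgClosed κ] (p : ℕ) [Fact p.Prime]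
    (n m s : ℕ), s ≠ 0 → n ≤ m → n ≤ (m + 1 - n) * (p - 1) →
    ∀ (β Φ E : Type) [Fintype β] [Fintype Φ] [DecidableEq Φ] [Fintype E]
      (e : Φ → ℕ), (∀ φ, p - 1 ≤ e φ) →
    ∀ (grp : Φ → Fin m) (fst : Fin m → Φ), (∀ c, grp (fst c) = c) →
    ∀ π : Φ → ℕ, (∀ φ, φ ≠ fst (grp φ) → p ∣ π φ) →
      (∀ c, e (fst c) + ∑ φ ∈ Finset.univ.filter (fun φ => grp φ = c ∧ φ ≠ fst c), π φ * e φ
        = p ^ s) →
    ∀ (gr : E → Φ) (W : E → MvPolynomial (Fin (n + 1) ⊕ β) ℤ)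
      (cf : (Σ φ : Φ, It (Fin (n + 1)) (e φ)) → κ) (c' : E → κ),
      AlgebraicIndependent ℚ (Sum.elim cf c') →
    ∀ P : Ideal (MvPolynomial (Fin (n + 1) ⊕ β) κ), IsHom P →
      (∃ C : ℕ, ∀ t, hf P t ≤ C * (t + 1)) →
      (∀ c, ∃ i : β, X (Sum.inr i) ^ (p ^ s) - Th β e cf gr W c' (fst c) *
        ∏ φ ∈ Finset.univ.filter (fun φ => grp φ = c ∧ φ ≠ fst c),
          Th β e cf gr W c' φ ^ π φ ∈ P) →
      (∀ i : β, X (Sum.inr i) ∈ P ∨ ∃ ρ : Φ → ℕ, 0 < ∑ φ, ρ φ * e φ ∧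
          X (Sum.inr i) ^ (∑ φ, ρ φ * e φ) - ∏ φ, Th β e cf gr W c' φ ^ ρ φ ∈ P) →
      ∃ K : ℕ, ∀ t ≥ K, ((p ^ s : ℕ) : ℤ) ∣ (hf P (t + 1) : ℤ) - hf P t

/-- part 3: comparison of Hilbert functions, degree of a Kummer extension -/
def SCmp : Prop :=
  ∀ (κ Ω : Type) [Field κ] [CharZero κ] [Field Ω] [Algebra κ Ω] (X β : Type) [Fintype X]
    [Fintype β] (y : X → Ω) (z : β → Ω) (j0 : X), y j0 ≠ 0 →
    (∀ i, IntRel (κ := κ) y 1 (z i)) →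
    (∃ C : ℕ, ∀ t, Module.finrank κ (Pc κ (Sum.elim y z) t) ≤ C * (t + 1)) →
    ∃ K a b δ : ℕ, 0 < δ ∧
      (∀ t ≥ K, Module.finrank κ (Pc κ (Sum.elim y z) (t + 1))
        = Module.finrank κ (Pc κ (Sum.elim y z) t) + a) ∧
      (∀ t ≥ K, Module.finrank κ (Pc κ y (t + 1)) = Module.finrank κ (Pc κ y t) + b) ∧
      a = δ * b ∧
      ∀ (p k0 : ℕ), p.Prime → (∃ ω : κ, IsPrimitiveRoot ω (p ^ k0)) →
        (∀ i, (z i / y j0) ^ (p ^ k0) ∈ RF κ y j0) → δ ∣ p ^ (k0 * Fintype.card β)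

/-- part 4: norm forms, homogeneous primes over a field of characteristic zero -/
def SK1 : Prop :=
  ∀ (κ : Type) [Field κ] [CharZero κ] [IsAlgClosed κ] (p : ℕ) [Fact p.Prime]
    (n r m s k0 : ℕ), s ≠ 0 → n ≤ m → n ≤ (m + 1 - n) * (p - 1) → n < p ^ (k0 + 1) →
    ∀ (H : Type) [Fintype H] [DecidableEq H] (D : Dat r m H), D.Good p s →
      (∀ h, k0 + 1 ≤ D.t (Sum.inr (D.it h))) →
    ∀ ω : κ, IsPrimitiveRoot ω (p ^ s) →
    ∀ (cf : (Σ φ : H ⊕ Fin r, It (Fin (n + 1)) (D.e p φ)) → κ) (c' : D.Ex n p → κ),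
      AlgebraicIndependent ℚ (Sum.elim cf c') →
    ∀ P : Ideal (MvPolynomial (Fin (n + 1) ⊕ Fin r) κ), IsHom P → P.IsPrime →
      (∃ C : ℕ, ∀ t, hf P t ≤ C * (t + 1)) →
      (∀ i, ¬ D.used i → X (Sum.inr i) ∈ P) →
      (∀ i, D.used i → (∀ h, D.it h ≠ i) → X (Sum.inr i) ^ (p ^ D.t (Sum.inr i)) -
        D.pv (fun i' => X (Sum.inr i')) (Sum.inr i) *
          Psi (Fin r) (D.e p) cf (Sum.inr i) ∈ P) →
      (∀ i : {i : Fin r // ∃ h, D.it h = i}, ∃ E ∈ P, D.IsNorm s ω cf c' i E) →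
      ∃ K : ℕ, ∀ t ≥ K, ((p ^ (s - k0 * Fintype.card H) : ℕ) : ℤ) ∣ (hf P (t + 1) : ℤ) - hf P t

/-- part 5: the statement over `ℂ`, prime powers -/
def SMain : Prop :=
  ∀ (n r : ℕ) (_hn : 0 < n) (d : Fin r → ℕ),
    ∃ bad : ℕ → MvPolynomial (Σ i : Fin r, {μ : Fin (n + r + 1) →₀ ℕ // μ.degree = d i}) ℂ,
      (∀ j, bad j ≠ 0) ∧
      ∀ f : Fin r → MvPolynomial (Fin (n + r + 1)) ℂ,
        (∀ i, f i ∈ MvPolynomial.homogeneousSubmodule (Fin (n + r + 1)) ℂ (d i)) →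
        (∀ j, MvPolynomial.eval (fun x => MvPolynomial.coeff x.2.1 (f x.1)) (bad j) ≠ 0) →
        ∀ I : Ideal (MvPolynomial (Fin (n + r + 1)) ℂ),
          (∀ p ∈ I, ∀ k : ℕ, MvPolynomial.homogeneousComponent k p ∈ I) →
          I.IsPrime →
          ringKrullDim (MvPolynomial (Fin (n + r + 1)) ℂ ⧸ I) = 2 →
          (∀ i, f i ∈ I) →
          ∀ (p m s k0 : ℕ) (H : Type) [Fintype H] [DecidableEq H] (D : Dat r m H),
            p.Prime → s ≠ 0 → n ≤ m → n ≤ (m + 1 - n) * (p - 1) → n < p ^ (k0 + 1) →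
            D.Good p s → (∀ h, k0 + 1 ≤ D.t (Sum.inr (D.it h))) →
            (∀ i, D.used i → 0 < d i ∧ p ^ D.tot i ∣ d i) →
            ∃ K : ℕ, ∀ k : ℕ, K ≤ k →
              ((p ^ (s - k0 * Fintype.card H) : ℕ) : ℤ) ∣
                (Module.finrank ℂ (Submodule.map (Ideal.Quotient.mkₐ ℂ I).toLinearMap
                    (MvPolynomial.homogeneousSubmodule (Fin (n + r + 1)) ℂ (k + 1))) : ℤ) -
                (Module.finrank ℂ (Submodule.map (Ideal.Quotient.mkₐ ℂ I).toLinearMap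
                    (MvPolynomial.homogeneousSubmodule (Fin (n + r + 1)) ℂ k)) : ℤ)

/-- part 6: packing with visible parts of compound equations of size more than `k0` -/
def SComb : Prop :=
  ∀ (r m s k0 p : ℕ) (v : Fin r → ℕ), p.Prime → 0 < m → k0 < s →
    m * s + k0 * (m - 1) ≤ ∑ i, v i →
    ∃ (H : Type) (_ : Fintype H) (_ : DecidableEq H) (D : Dat r m H),
      D.Good p s ∧ (∀ h, k0 + 1 ≤ D.t (Sum.inr (D.it h))) ∧ Fintype.card H ≤ m - 1 ∧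
        ∀ i, D.used i → D.tot i ≤ v i

/-- part 7: the final theorem -/
def SFinal : Prop :=
  ∀ (n r : ℕ) (_hn : 0 < n) (d : Fin r → ℕ),
    ∃ bad : ℕ → MvPolynomial (Σ i : Fin r, {μ : Fin (n + r + 1) →₀ ℕ // μ.degree = d i}) ℂ,
      (∀ j, bad j ≠ 0) ∧
      ∀ f : Fin r → MvPolynomial (Fin (n + r + 1)) ℂ,
        (∀ i, f i ∈ MvPolynomial.homogeneousSubmodule (Fin (n + r + 1)) ℂ (d i)) →
        (∀ j, MvPolynomial.eval (fun x => MvPolynomial.coeff x.2.1 (f x.1)) (bad j) ≠ 0) →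
        ∀ I : Ideal (MvPolynomial (Fin (n + r + 1)) ℂ),
          (∀ p ∈ I, ∀ k : ℕ, MvPolynomial.homogeneousComponent k p ∈ I) →
          I.IsPrime →
          ringKrullDim (MvPolynomial (Fin (n + r + 1)) ℂ ⧸ I) = 2 →
          (∀ i, f i ∈ I) →
          ∀ Q : ℕ, 0 < Q →
            (∀ p : ℕ, p.Prime → p ∣ Q → p ^ ((n + (n - 1) / (p - 1)) * Q.factorization p +
              Nat.log p n * ((n + (n - 1) / (p - 1)) ^ 2 - 1)) ∣ ∏ i, d i) →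
            ∃ K : ℕ, ∀ k : ℕ, K ≤ k →
              (Q : ℤ) ∣
                (Module.finrank ℂ (Submodule.map (Ideal.Quotient.mkₐ ℂ I).toLinearMap
                    (MvPolynomial.homogeneousSubmodule (Fin (n + r + 1)) ℂ (k + 1))) : ℤ) -
                (Module.finrank ℂ (Submodule.map (Ideal.Quotient.mkₐ ℂ I).toLinearMap
                    (MvPolynomial.homogeneousSubmodule (Fin (n + r + 1)) ℂ k)) : ℤ)

end Pool.Agent.Z894.SP
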