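import Mathlib
import Pool.Agent.Z894.CP.Stm
import Pool.Agent.Y286.CP.DerF
import Pool.Agent.Y3.CP.Count
import Pool.Agent.Y170.CP.Step
import Pool.Agent.Y146.CP.Kappa
import Pool.Agent.Y417.CP.Spec
import Pool.Agent.Y405.CP.Alg
import Pool.Agent.Y784.CP.Main
import Pool.Agent.Y484.CP.Final

set_option autoImplicit false

namespace Pool.Agent.Z894.CP

theorem kappa : PKappa :=
  Pool.Agent.Y146.CP.kappa_holds
    (Pool.Agent.Y170.CP.step_holds Pool.Agent.Y286.CP.der_holds Pool.Agent.Y3.CP.count_holds)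

theorem final : PFinal :=
  Pool.Agent.Y484.CP.final_holds
    (Pool.Agent.Y784.CP.main_holds kappa Pool.Agent.Y417.CP.spec_holds
      Pool.Agent.Y405.CP.alg_holds)

end Pool.Agent.Z894.CP
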